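import Pool.Agent.Lib.LX56.Main2

/-!
MP_a75583_al (Lang's conjecture on non-real fields over real closed fields), transcendence degree
one: explicit bounds, the same for all fields, for the number of variables from which on systems of
`r` forms of degree `d` have nontrivial zeros. For one quartic form the bound is 105 variables.

Proof idea: let `L = K[i]`, `N` the norm. The circle version of the Borsuk-Ulam theorem (over all
real closed fields), applied to sections of large multiples of a divisor, gives a semilinear Tsen
theorem: systems of polynomials in the coordinates of `k` vectors of `L ^ m` and their conjugates,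
each one homogeneous of a nonzero weight for the torus, have a common zero in nonzero vectors if
the sum of the degrees is less than `m`. So for every `v` in `K ^ m` there are nonzero
`w a` in `L ^ m` such that `f (s * v + ∑ a, tr (z a * w a))` is a form `F` of degree `e` in `s ^ 2`
and the norms `N (z a)`, if `f` has degree `2 e`. Every element of `K` is a norm, and the first
coordinate of a zero of `F` can be made a square by scaling; a rotation of one `z a` by a rational
point of the circle makes the zero of `f` nontrivial.
-/

theorem Pool.Agent.Results.MP_a75583_al.ExplicitCurves.result :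
    ∃ B : ℕ → ℕ → ℕ, (∀ r d, Odd d → B r d = r * d) ∧
      (∀ r, B r 2 = r * (r + 1)) ∧
      (∀ r e, 2 ≤ e → B r (2 * e) = r * (B r e *
        ((2 * B r e + 2 * e).choose (2 * e - 1) - (B r e + e).choose (e - 1)))) ∧
      B 1 4 = 104 ∧
      ∀ (R K : Type) [Field R] [IsRealClosed R] [Field K] [Algebra R K],
        Algebra.trdeg R K = 1 → (∃ (s : ℕ) (α : Fin s → K), ∑ i, α i ^ 2 = -1) →
        ∀ r d m : ℕ, 1 ≤ d → B r d < m → ∀ f : Fin r → MvPolynomial (Fin m) K,
          (∀ ρ, (f ρ).IsHomogeneous d) →
            ∃ x : Fin m → K, x ≠ 0 ∧ ∀ ρ, MvPolynomial.eval x (f ρ) = 0 :=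
  LX.explicit
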