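import Pool.Agent.Lib.LX56.Diag

/-!
MP_a75583_al (Lang's conjecture on non-real fields over real closed fields), transcendence degree
one, diagonal forms: explicit bounds, the same for all fields, much smaller than for general forms.
Every diagonal quartic form in 19 variables has a nontrivial zero.

Proof idea: by the circle version of the Borsuk-Ulam theorem (over all real closed fields) there
is, for `r` diagonal forms of degree `2 e` in `2 r e ^ 2 + 1` variables over `K`, a plane
`tr (z * w)`, `z` in `K[i]`, where every one of them is a constant times the `e`-th power of the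
norm of `z`. Every element of `K` is a norm. One coordinate and `D r e` such blocks reduce
degree `2 e` to degree `e`; the one coordinate is made a square by scaling.
-/

theorem Pool.Agent.Results.MP_a75583_al.ExplicitDiagonal.result :
    ∃ D : ℕ → ℕ → ℕ, (∀ r d, Odd d → D r d = r * d) ∧
      (∀ r, D r 2 = r * (r + 1)) ∧
      (∀ r e, 2 ≤ e → D r (2 * e) = D r e * (2 * r * e ^ 2 + 1)) ∧
      D 1 4 = 18 ∧
      ∀ (R K : Type) [Field R] [IsRealClosed R] [Field K] [Algebra R K],
        Algebra.trdeg R K = 1 → (∃ (s : ℕ) (α : Fin s → K), ∑ i, α i ^ 2 = -1) →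
        ∀ r d m : ℕ, 1 ≤ d → D r d < m → ∀ a : Fin m → Fin r → K,
          ∃ x : Fin m → K, x ≠ 0 ∧ ∀ ρ, ∑ l, a l ρ * x l ^ d = 0 :=
  LX.explicit_diag
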