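import Pool.Agent.Lib.LWR.Main

/-!
MP_a75583_al (Lang's conjecture on non-real fields over real closed fields): a weak form for all
real closed fields, all transcendence degrees and all degrees. For all `n`, `d`, `r` there is `N`
such that for every real closed field `R` and every nonreal extension field `K` of `R` of
transcendence degree `n` every system of `r` forms over `K` of degrees between `1` and `d` in at
least `N` variables has a nontrivial zero.

Proof idea: the circle version of the Borsuk-Ulam theorem (proved in `LW.BU` over the real numbers
with a Tucker type lemma for the group of order `p`) is applied to polynomial systems and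
transferred to every real closed field (`RC.transfer`: the field `R(i)` is algebraically closed, the
theorem of Artin and Lang by trace forms and ultrapowers, embedding in an ultrapower of the real
numbers). It gives a semilinear version of Tsen's theorem for `K[i]`; with lacunary frequencies and
Hilbert's identity this reduces diagonal forms of degree `2 e` to forms of degree `e`; Brauer's
diagonalisation does the rest. The level of `K` is bounded by `8 * 2^n` (after Pfister), so it does
not enter in the bound `N`.
-/

theorem Pool.Agent.Results.MP_a75583_al.RealClosedWeakLang.result (n d r : ℕ) :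
    ∃ N : ℕ, ∀ (R K : Type) [Field R] [IsRealClosed R] [Field K] [Algebra R K],
      Algebra.trdeg R K = n → (∃ (s : ℕ) (α : Fin s → K), ∑ i, α i ^ 2 = -1) →
      ∀ m : ℕ, N ≤ m → ∀ (deg : Fin r → ℕ) (f : Fin r → MvPolynomial (Fin m) K),
        (∀ ρ, 1 ≤ deg ρ ∧ deg ρ ≤ d ∧ (f ρ).IsHomogeneous (deg ρ)) →
        ∃ x : Fin m → K, x ≠ 0 ∧ ∀ ρ, MvPolynomial.eval x (f ρ) = 0 :=
  LWR.weak_lang n d r
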